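import Pool.Agent.MP_f5cee0_ag.H4.Shear

/-!
The normalisation of the delta-constant stratum in the semiuniversal deformation of an isolated
algebroid plane curve singularity is smooth in positive characteristic.
-/

namespace Pool.Agent.Results.MP_f5cee0_ag.Smooth

open Pool.Agent.MP_f5cee0_ag.H4

theorem result.{u} (K : Type u) [Field K] [IsAlgClosed K] (p : ℕ) [Fact p.Prime] [CharP K p]
    (L : Type u) [Field L] [Algebra (PowerSeries K) L] [FaithfulSMul (PowerSeries K) L]
    [Algebra.IsAlgebraic (PowerSeries K) L]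
    (f : MvPowerSeries (Fin 2) K) (hf0 : f ≠ 0) (_hf1 : MvPowerSeries.constantCoeff f = 0)
    (hred : IsReduced (MvPowerSeries (Fin 2) K ⧸ Ideal.span {f}))
    (τ : ℕ) (g : Fin τ → MvPowerSeries (Fin 2) K)
    (hg : RepresentsBasis K
      (Ideal.span {f, MvPowerSeries.pderiv K 0 f, MvPowerSeries.pderiv K 1 f}) g) :
    HasSmoothNormalisation K (MvPowerSeries (Fin τ) K ⧸ stratumIdeal L f g) := by
  have : ExpChar K p := ExpChar.prime Fact.out
  obtain ⟨b, hb⟩ := hg
  refine main_of_spans p L hf0 hred fun h => ?_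
  have h1 := b.sum_repr (Ideal.Quotient.mk _ h)
  have h2 : h - ∑ k, MvPowerSeries.C (b.repr (Ideal.Quotient.mk _ h) k) * g k ∈
      Ideal.span {f, MvPowerSeries.pderiv K 0 f, MvPowerSeries.pderiv K 1 f} := by
    rw [← Ideal.Quotient.eq, map_sum]
    refine h1.symm.trans (Finset.sum_congr rfl fun k _ => ?_)
    rw [hb, map_mul]
    exact Algebra.smul_def _ (Ideal.Quotient.mk _ (g k))
  obtain ⟨q, z, hz, h3⟩ := Ideal.mem_span_insert.mp h2
  obtain ⟨a, c, rfl⟩ := Ideal.mem_span_pair.mp hz
  exact ⟨_, a, c, q, by linear_combination h3⟩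

end Pool.Agent.Results.MP_f5cee0_ag.Smooth
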